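import Pool.Agent.H65.CRZ.TN
import Pool.Agent.H27.CV.CM
import Pool.Agent.H19.CV.CZ

/-!
# The sums of Selberg's weights over the sets which contain a given set
-/

set_option autoImplicit false

namespace Pool.Agent.H81.CRZ

open Finset Pool.Agent.H37.CV Pool.Agent.H65.CRZ

variable {α : Type}

theorem nS_cpow {N : α → ℝ} (hN : ∀ P, 2 ≤ N P) (z : ℂ) (S : Finset α) :
    ((nS N S : ℝ) : ℂ) ^ z = ∏ P ∈ S, ((N P : ℝ) : ℂ) ^ z := by
  classical
  induction S using Finset.induction_on with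
  | empty =>
    unfold nS
    rw [prod_empty, prod_empty, Complex.ofReal_one, Complex.one_cpow]
  | insert P S hP ih =>
    have h1 : nS N (insert P S) = N P * nS N S := prod_insert hP
    rw [h1, prod_insert hP, Complex.ofReal_mul, Complex.mul_cpow_ofReal_nonneg
      (by linarith [hN P]) (Pool.Agent.H27.CV.nS_pos hN S).le, ih]

/-- the factor of a prime -/
noncomputable def hf (N : α → ℝ) (β : ℂ) (P : α) : ℂ := ((N P : ℝ) : ℂ) ^ (-β) - 1

theorem nS_cpow_sum {N : α → ℝ} (hN : ∀ P, 2 ≤ N P) (β : ℂ) (S : Finset α) :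
    ((nS N S : ℝ) : ℂ) ^ (-β) = ∑ E ∈ S.powerset, ∏ P ∈ E, hf N β P := by
  rw [nS_cpow hN, ← Finset.prod_one_add]
  refine prod_congr rfl fun P _ => ?_
  unfold hf
  ring

theorem bP_eq {N : α → ℝ} (β : ℂ) (S : Finset α) :
    bP N β S = (-1) ^ S.card * (∏ P ∈ S, hf N β P) / ((fS N S : ℝ) : ℂ) := by
  unfold bP fS hf
  rw [Complex.ofReal_prod, ← prod_const, ← prod_mul_distrib, ← prod_div_distrib]
  refine prod_congr rfl fun P _ => ?_
  congr 1
  ring

open scoped Classical in
theorem summand {N : α → ℝ} (hN : ∀ P, 2 ≤ N P) (β : ℂ) {A S : Finset α} (hS : S ⊆ A) (M : ℝ) :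
    (xS N A M S : ℂ) * ((nS N S : ℝ) : ℂ) ^ (-(1 + β)) =
      ∑ E ∈ A.powerset, if E ⊆ S then
        (∏ P ∈ E, hf N β P) * ((xS N A M S * (nS N (S ∩ ∅) / nS N S) : ℝ) : ℂ) else 0 := by
  have h0 : (0 : ℝ) < nS N S := Pool.Agent.H27.CV.nS_pos hN S
  have h1 : ((nS N S : ℝ) : ℂ) ≠ 0 := Complex.ofReal_ne_zero.2 h0.ne'
  have h2 : ((nS N S : ℝ) : ℂ) ^ (-(1 + β)) =
      ((nS N S : ℝ) : ℂ)⁻¹ * ((nS N S : ℝ) : ℂ) ^ (-β) := by
    rw [neg_add, Complex.cpow_add _ _ h1, Complex.cpow_neg_one]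
  have h3 : nS N (S ∩ ∅) = 1 := by
    rw [inter_empty]
    exact prod_empty
  have h4 : A.powerset.filter (fun E => E ⊆ S) = S.powerset := by
    ext E
    rw [mem_filter, mem_powerset, mem_powerset]
    exact ⟨fun h => h.2, fun h => ⟨h.trans hS, h⟩⟩
  rw [← sum_filter, h4, ← sum_mul, ← nS_cpow_sum hN, h2, h3]
  push_cast
  ring

open scoped Classical in
theorem pf_S1 : T_S1 := by
  intro α N A D M β hN hM hD
  obtain ⟨hDA, hDM⟩ := Pool.Agent.H27.CV.mem_DS.1 hD
  have hD0 : (0 : ℝ) < nS N D := Pool.Agent.H27.CV.nS_pos hN D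
  -- the interchange
  have e1 : ∑ S ∈ (DS N A M).filter (fun S => D ⊆ S), (xS N A M S : ℂ) *
      ((nS N S : ℝ) : ℂ) ^ (-(1 + β)) =
      ∑ E ∈ A.powerset, (∏ P ∈ E, hf N β P) *
        ((Pool.Agent.H27.CV.zz N A ∅ M (D ∪ E) : ℝ) : ℂ) := by
    rw [sum_congr rfl fun S hS =>
      summand hN β (Pool.Agent.H27.CV.mem_DS.1 (mem_filter.1 hS).1).1 M, sum_comm]
    refine sum_congr rfl fun E _ => ?_
    rw [← sum_filter, filter_filter, ← mul_sum]
    congr 1
    unfold Pool.Agent.H27.CV.zz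
    rw [Complex.ofReal_sum]
    refine sum_congr (filter_congr fun S _ => ?_) fun _ _ => rfl
    exact union_subset_iff.symm
  -- the sum over the pairs
  have e2 : ∑ E ∈ A.powerset, (∏ P ∈ E, hf N β P) *
        ((Pool.Agent.H27.CV.zz N A ∅ M (D ∪ E) : ℝ) : ℂ) =
      ∑ p ∈ D.powerset ×ˢ (A \ D).powerset, (∏ P ∈ p.1, hf N β P) *
        ((-1) ^ D.card / ((fS N D * GS N A M : ℝ) : ℂ) *
          (if nS N D * nS N p.2 ≤ M then bP N β p.2 else 0)) := by
    refine sum_nbij' (fun E => (E ∩ D, E \ D)) (fun p => p.1 ∪ p.2) ?_ ?_ ?_ ?_ ?_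
    · intro E hE
      rw [mem_product, mem_powerset, mem_powerset]
      exact ⟨inter_subset_right, sdiff_subset_sdiff (mem_powerset.1 hE) le_rfl⟩
    · intro p hp
      rw [mem_product, mem_powerset, mem_powerset] at hp
      rw [mem_powerset]
      exact union_subset (hp.1.trans hDA) (hp.2.trans sdiff_subset)
    · intro E _
      change E ∩ D ∪ E \ D = E
      ext x
      simp only [mem_union, mem_inter, mem_sdiff]
      tauto
    · intro p hp
      rw [mem_product, mem_powerset, mem_powerset] at hp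
      have h1 : (p.1 ∪ p.2) ∩ D = p.1 := by
        ext x
        simp only [mem_union, mem_inter]
        constructor
        · rintro ⟨h | h, hx⟩
          · exact h
          · exact absurd hx (mem_sdiff.1 (hp.2 h)).2
        · intro h
          exact ⟨Or.inl h, hp.1 h⟩
      have h2 : (p.1 ∪ p.2) \ D = p.2 := by
        ext x
        simp only [mem_union, mem_sdiff]
        constructor
        · rintro ⟨h | h, hx⟩
          · exact absurd (hp.1 h) hx
          · exact h
        · intro h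
          exact ⟨Or.inr h, (mem_sdiff.1 (hp.2 h)).2⟩
      change ((p.1 ∪ p.2) ∩ D, (p.1 ∪ p.2) \ D) = p
      rw [h1, h2]
    · intro E hE
      have hEA := mem_powerset.1 hE
      have hdis : Disjoint (E ∩ D) (E \ D) :=
        disjoint_left.2 fun x h1 h2 => (mem_sdiff.1 h2).2 (mem_inter.1 h1).2
      have hDd : Disjoint D (E \ D) := disjoint_sdiff
      have hE1 : E = E ∩ D ∪ E \ D := by
        ext x
        simp only [mem_union, mem_inter, mem_sdiff]
        tauto
      have hE2 : D ∪ E = D ∪ E \ D := (union_sdiff_self_eq_union).symm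
      have hp : ∏ P ∈ E, hf N β P = (∏ P ∈ E ∩ D, hf N β P) * ∏ P ∈ E \ D, hf N β P := by
        conv_lhs => rw [hE1]
        exact prod_union hdis
      have hn : nS N (D ∪ E \ D) = nS N D * nS N (E \ D) := prod_union hDd
      have hf2 : fS N (D ∪ E \ D) = fS N D * fS N (E \ D) := prod_union hDd
      have hc : (D ∪ E \ D).card = D.card + (E \ D).card := card_union_of_disjoint hDd
      rw [Pool.Agent.H27.CV.zz_empty Pool.Agent.H19.CV.pf_CZ hN hM (union_subset hDA hEA), hp,
        hE2, hn, hf2, hc]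
      change _ = (∏ P ∈ E ∩ D, hf N β P) *
        ((-1) ^ D.card / ((fS N D * GS N A M : ℝ) : ℂ) *
          (if nS N D * nS N (E \ D) ≤ M then bP N β (E \ D) else 0))
      by_cases h : nS N D * nS N (E \ D) ≤ M
      · rw [if_pos h, if_pos h, bP_eq, pow_add]
        push_cast
        field_simp
      · rw [if_neg h, if_neg h]
        push_cast
        ring
  -- the second factor
  have e3 : ∑ b ∈ (A \ D).powerset, (if nS N D * nS N b ≤ M then bP N β b else 0) =
      Eb N A D (M / nS N D) β := by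
    unfold Eb
    rw [← sum_filter]
    refine sum_congr ?_ fun _ _ => rfl
    ext b
    rw [mem_filter, mem_filter, mem_powerset, Pool.Agent.H27.CV.mem_DS, le_div_iff₀ hD0,
      mul_comm (nS N b)]
    constructor
    · rintro ⟨h1, h2⟩
      exact ⟨⟨h1.trans sdiff_subset, h2⟩, disjoint_of_subset_left h1 sdiff_disjoint⟩
    · rintro ⟨⟨h1, h2⟩, h3⟩
      exact ⟨fun x hx => mem_sdiff.2 ⟨h1 hx, fun hx' => (disjoint_left.1 h3 hx) hx'⟩, h2⟩
  rw [e1, e2, sum_product, nS_cpow_sum hN, ← e3]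
  have e4 : ∀ a ∈ D.powerset, ∑ b ∈ (A \ D).powerset, (∏ P ∈ a, hf N β P) *
        ((-1) ^ D.card / ((fS N D * GS N A M : ℝ) : ℂ) *
          (if nS N D * nS N b ≤ M then bP N β b else 0)) =
      (∏ P ∈ a, hf N β P) * ((-1) ^ D.card / ((fS N D * GS N A M : ℝ) : ℂ) *
        ∑ b ∈ (A \ D).powerset, (if nS N D * nS N b ≤ M then bP N β b else 0)) := by
    intro a _
    rw [mul_sum, mul_sum]
  rw [sum_congr rfl e4, ← sum_mul]
  ring

end Pool.Agent.H81.CRZ
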